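import Pool.Agent.Y9.TV.Main

/-!
# The modified Tverberg A-P conjecture is false

The conjecture: for `2 ≤ r < d`, every strongly admissible `r`-tuple is Tverberg prescribable in
dimension `d`. It is false already for `r = 3`, `d = 4`: the tuple `(2, 2, 4)` is strongly admissible,
but for every `N` there is a continuous map from the `N`-dimensional simplex to `ℝ ^ 4` such that there
are no two disjoint triangles and a 4-dimensional face disjoint from them whose images have a common
point. In the same way it is false for all `d > r` with `1 ≤ d mod r ≤ r - 2`. In general, a tuple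
`(d_1, ..., d_r)` is not Tverberg prescribable in dimension `d` if
`∑ (d - min (d_i, m + 1)) > d`, where `m` is the smallest `d_i`.

The map: let `v_0, ..., v_N` be generic points of `ℝ ^ d`. The point with the barycentric coordinates
`x_0, ..., x_N` is mapped to `∑ (x_i - t)⁺ v_i`, where `t` is the coordinate number `m + 2` of `x` in
decreasing order. This is the linear map on the `m`-skeleton, and every face is mapped into the cone
with apex `0` over the image of its own `m`-skeleton, which has dimension `m + 1` only. So, for the
dimensions of the intersections, the faces of dimension `d_i` count as faces of dimension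
`min (d_i, m + 1)`; the apex itself is not in the image of a face of dimension `m`. The genericity is
proved by counting parameters, with Hausdorff dimension.
-/

set_option autoImplicit false

namespace Pool.Agent.Results.MP_110560_co.TruncatedMap

open Pool.Agent.Y9.TV

/-- (1) The modified Tverberg A-P conjecture is false.
(2) The tuple `(2, 2, 4)` is strongly admissible for `d = 4`, but not Tverberg prescribable in
dimension `4`.
(3) More generally, if `r < d` and the remainder of `d` modulo `r` is neither `0` nor `r - 1`, then
some `r`-tuple with all entries equal to `d` or `d - ⌈d / r⌉` is strongly admissible for `d`, but not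
Tverberg prescribable in dimension `d`.
(4) More generally, a tuple `D` is not Tverberg prescribable in dimension `d` if
`∑ i, (d - min (D i) (D j + 1)) > d` for some `j` (that is, for an entry `D j` that is the smallest
one). -/
theorem result :
    (¬ ∀ d r : ℕ, 2 ≤ r → r < d → ∀ D : Fin r → ℤ, StronglyAdmissible d D → Prescribable d D) ∧
    (StronglyAdmissible 4 ![2, 2, 4] ∧ ¬ Prescribable 4 ![2, 2, 4]) ∧
    (∀ d r : ℕ, r < d → 1 ≤ d % r → d % r + 2 ≤ r → ∃ D : Fin r → ℤ,
      (∀ i, D i = d ∨ D i = d - (d / r + 1)) ∧ StronglyAdmissible d D ∧ ¬ Prescribable d D) ∧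
    (∀ (d r : ℕ) (D : Fin r → ℤ) (j : Fin r),
      (d : ℤ) < ∑ i, ((d : ℤ) - min (D i) (D j + 1)) → ¬ Prescribable d D) := by
  have h2 : StronglyAdmissible 4 ![2, 2, 4] ∧ ¬ Prescribable 4 ![2, 2, 4] := by
    refine ⟨⟨fun i => ?_, ?_⟩, not_prescribable 4 3 ![2, 2, 4] 0 ?_⟩
    · fin_cases i <;> norm_num
    · simp [Fin.sum_univ_three]
    · simp [Fin.sum_univ_three]
  refine ⟨fun h => h2.2 (h 4 3 (by norm_num) (by norm_num) _ h2.1), h2,
    fun d r hrd h1 h2 => strongly_admissible_bad d r hrd h1 h2,
    fun d r D j h => not_prescribable d r D j h⟩

end Pool.Agent.Results.MP_110560_co.TruncatedMap
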